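import Mathlib
import Pool.Agent.N909.CL.Def

/-!
# Project CL (helper909), part F1: lower bounds for the values along block words
-/

set_option autoImplicit false

open Filter Set
open scoped Topology

namespace Pool.Agent.N499.CL

open Pool.Agent.N909.CM Pool.Agent.N909.CL

/-- the inverse of the slope of the word `v` -/
noncomputable def iv (v : List Bool) : ℝ := 2 ^ v.length / 3 ^ (v.count true)

lemma iv_pos (v : List Bool) : 0 < iv v := by
  unfold iv
  positivity

lemma step (d : Bool) (n : ℕ) : ∃ c : ℝ, 0 < c ∧ (∀ v, iv (d :: v) = c * iv v) ∧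
    (n : ℝ) - c / 2 ≤ c * (stp d n : ℕ) := by
  cases d with
  | true =>
    refine ⟨2 / 3, by norm_num, ?_, ?_⟩
    · intro v
      unfold iv
      rw [List.length_cons, List.count_cons_self, pow_succ, pow_succ]
      field_simp
    · have h1 : 3 * n ≤ 2 * stp true n := by
        have : stp true n = (3 * n + 1) / 2 := by simp [stp]
        rw [this]
        omega
      have h2 : (3 : ℝ) * n ≤ 2 * (stp true n : ℕ) := by exact_mod_cast h1
      linarith
  | false =>
    refine ⟨2, by norm_num, ?_, ?_⟩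
    · intro v
      unfold iv
      rw [List.length_cons, List.count_cons_of_ne (by decide), pow_succ]
      ring
    · have h1 : n ≤ 2 * stp false n + 1 := by
        have : stp false n = n / 2 := by simp [stp]
        rw [this]
        omega
      have h2 : (n : ℝ) ≤ 2 * (stp false n : ℕ) + 1 := by exact_mod_cast h1
      linarith

lemma val_ge (v : List Bool) : ∀ n : ℕ,
    (n : ℝ) - 1 / 2 * ∑ i ∈ Finset.range v.length, iv (v.take (i + 1)) ≤ (val n v : ℕ) * iv v := by
  induction v with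
  | nil =>
    intro n
    simp [iv, val]
  | cons d w ih =>
    intro n
    have h := ih (stp d n)
    obtain ⟨c, hc, h1, h2⟩ := step d n
    have e0 : val n (d :: w) = val (stp d n) w := rfl
    rw [e0, List.length_cons, Finset.sum_range_succ']
    simp only [List.take_succ_cons, h1, zero_add, List.take_zero]
    have e1 : iv [] = 1 := by simp [iv]
    rw [e1, ← Finset.mul_sum]
    have h3 := mul_le_mul_of_nonneg_left h hc.le
    have e2 : c * ((stp d n : ℕ) - 1 / 2 * ∑ i ∈ Finset.range w.length, iv (w.take (i + 1))) =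
        c * (stp d n : ℕ) - 1 / 2 * (c * ∑ i ∈ Finset.range w.length, iv (w.take (i + 1))) := by ring
    rw [e2] at h3
    have e3 : c * (((val (stp d n) w : ℕ) : ℝ) * iv w) =
        ((val (stp d n) w : ℕ) : ℝ) * (c * iv w) := by ring
    rw [e3] at h3
    linarith

lemma mem_pos (w : List Bool) : ∀ n p : ℕ, p ∈ pos n w → ∃ j < w.length, p = val n (w.take j) := by
  induction w with
  | nil =>
    intro n p hp
    simp [pos] at hp
  | cons d w ih =>
    intro n p hp
    have hp' : p ∈ n :: pos (stp d n) w := hp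
    rcases List.mem_cons.1 hp' with h | h
    · exact ⟨0, by simp, by simp [val, h]⟩
    · obtain ⟨j, hj, e⟩ := ih _ _ h
      refine ⟨j + 1, by simpa using hj, ?_⟩
      rw [List.take_succ_cons, e]
      rfl

lemma sumb (b : ℕ) (hb : 1 ≤ b) (R : ℝ) (hR : 0 < R) (hR1 : R ≠ 1) : ∃ C : ℝ, 0 < C ∧
    ∀ (J : ℕ) (Y : ℝ), 1 ≤ Y → R ^ J ≤ Y → ∀ j ≤ b * J,
      ∑ i ∈ Finset.range j, R ^ ((i + 1) / b) ≤ C * Y := by
  set ρ : ℝ := R ^ ((b : ℝ)⁻¹) with hρ
  have hb0 : (0 : ℝ) < b := by exact_mod_cast hb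
  have hρ0 : 0 < ρ := Real.rpow_pos_of_pos hR _
  have hρb : ρ ^ b = R := Real.rpow_inv_natCast_pow hR.le (by omega)
  rcases lt_or_gt_of_ne hR1 with h | h
  · have hρ1 : ρ < 1 := Real.rpow_lt_one hR.le h (by positivity)
    refine ⟨1 / (R * (1 - ρ)), ?_, ?_⟩
    · have : 0 < 1 - ρ := by linarith
      positivity
    · intro J Y hY _ j _
      have hC : 0 < 1 / (R * (1 - ρ)) := by
        have : 0 < 1 - ρ := by linarith
        positivity
      have h1 : ∀ i ∈ Finset.range j, R ^ ((i + 1) / b) ≤ 1 / R * ρ ^ i := by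
        intro i _
        have h2 : R ^ ((i + 1) / b) = ρ ^ (b * ((i + 1) / b)) := by rw [pow_mul, hρb]
        have h3 : i ≤ b * ((i + 1) / b) + b := by
          have := Nat.lt_mul_div_succ (i + 1) (show 0 < b by omega)
          rw [Nat.mul_add] at this
          omega
        have h4 : ρ ^ (b * ((i + 1) / b) + b) ≤ ρ ^ i := pow_le_pow_of_le_one hρ0.le hρ1.le h3
        rw [pow_add, hρb] at h4
        rw [h2, one_div, ← div_eq_inv_mul, le_div_iff₀ hR]
        exact h4
      calc ∑ i ∈ Finset.range j, R ^ ((i + 1) / b) ≤ ∑ i ∈ Finset.range j, 1 / R * ρ ^ i :=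
            Finset.sum_le_sum h1
        _ = 1 / R * ∑ i ∈ Finset.range j, ρ ^ i := by rw [Finset.mul_sum]
        _ = 1 / (R * (1 - ρ)) * (1 - ρ ^ j) := by
            rw [geom_sum_eq hρ1.ne]
            have h5 : (1 : ℝ) - ρ ≠ 0 := by linarith
            have h6 : ρ - 1 ≠ 0 := by linarith
            field_simp
            ring
        _ ≤ 1 / (R * (1 - ρ)) * Y := by
            apply mul_le_mul_of_nonneg_left _ hC.le
            have := pow_pos hρ0 j
            linarith
  · have hρ1 : 1 < ρ := Real.one_lt_rpow h (by positivity)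
    have hC : 0 < ρ / (ρ - 1) := by
      have : 0 < ρ - 1 := by linarith
      positivity
    refine ⟨ρ / (ρ - 1), hC, ?_⟩
    intro J Y hY hJ j hj
    have h1 : ∀ i ∈ Finset.range j, R ^ ((i + 1) / b) ≤ ρ * ρ ^ i := by
      intro i _
      have h2 : R ^ ((i + 1) / b) = ρ ^ (b * ((i + 1) / b)) := by rw [pow_mul, hρb]
      rw [h2, ← pow_succ']
      exact pow_le_pow_right₀ hρ1.le (Nat.mul_div_le _ _)
    calc ∑ i ∈ Finset.range j, R ^ ((i + 1) / b) ≤ ∑ i ∈ Finset.range j, ρ * ρ ^ i :=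
          Finset.sum_le_sum h1
      _ = ρ * ∑ i ∈ Finset.range j, ρ ^ i := by rw [Finset.mul_sum]
      _ = ρ / (ρ - 1) * (ρ ^ j - 1) := by
          rw [geom_sum_eq hρ1.ne']
          ring
      _ ≤ ρ / (ρ - 1) * Y := by
          apply mul_le_mul_of_nonneg_left _ hC.le
          have h3 : ρ ^ j ≤ ρ ^ (b * J) := pow_le_pow_right₀ hρ1.le hj
          rw [pow_mul, hρb] at h3
          linarith

/-- the inverse slopes of the beginnings of the block words -/
lemma iv_le (hE : StmE) (b u J : ℕ) (hb : 1 ≤ b) (hu : u ≤ b) (w : List Bool) (hw : w ∈ Pat b u J)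
    (j : ℕ) (hj : j ≤ b * J) : iv (w.take j) ≤ 2 ^ (j % b) * ((2 : ℝ) ^ b / 3 ^ u) ^ (j / b) := by
  obtain ⟨-, h⟩ := hE b u J hb hu
  obtain ⟨hl, hc, -⟩ := h w hw
  have hc' := (hc j hj).1
  unfold iv
  rw [List.length_take, hl, min_eq_left hj, div_pow, ← pow_mul, ← pow_mul, ← mul_div_assoc,
    ← pow_add, Nat.mod_add_div]
  apply div_le_div_of_nonneg_left (by positivity) (by positivity)
  apply pow_le_pow_right₀ (by norm_num)
  rw [mul_comm u]
  exact hc'

/-- the part CL/F1 -/
theorem t (hE : StmE) : StmF1 := by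
  intro b u hb hu hbu δ hδ hδ1
  set R : ℝ := (2 : ℝ) ^ b / 3 ^ u with hR
  have hR0 : 0 < R := by positivity
  have hR1 : R ≠ 1 := by
    intro h
    apply hbu
    rw [hR, div_eq_one_iff_eq (by positivity)] at h
    exact_mod_cast h
  obtain ⟨C, hC, hsum⟩ := sumb b hb R hR0 hR1
  have t1 : Tendsto (fun X : ℕ => (X : ℝ) ^ δ) atTop atTop :=
    (tendsto_rpow_atTop hδ).comp tendsto_natCast_atTop_atTop
  have t2 : Tendsto (fun X : ℕ => (X : ℝ) ^ (δ / 2)) atTop atTop :=
    (tendsto_rpow_atTop (by linarith)).comp tendsto_natCast_atTop_atTop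
  filter_upwards [eventually_ge_atTop 1, t1.eventually_ge_atTop (2 ^ b * C),
    t2.eventually_gt_atTop (2 ^ (b + 1))] with X hX hX1 hX2
  intro J hJ n hn w hw
  have hX0 : (0 : ℝ) < X := by exact_mod_cast hX
  have hX1' : (1 : ℝ) ≤ X := by exact_mod_cast hX
  set Y : ℝ := (X : ℝ) ^ (1 - δ) with hY
  have hY0 : 0 < Y := Real.rpow_pos_of_pos hX0 _
  have hY1 : 1 ≤ Y := Real.one_le_rpow hX1' (by linarith)
  have hXY : (X : ℝ) = Y * (X : ℝ) ^ δ := by
    rw [hY, ← Real.rpow_add hX0]
    norm_num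
  have hRm : ∀ m ≤ J, R ^ m ≤ Y := by
    intro m hm
    rcases le_total 1 R with h | h
    · exact (pow_le_pow_right₀ h hm).trans hJ
    · exact (pow_le_one₀ hR0.le h).trans hY1
  obtain ⟨hl, -, -⟩ := (hE b u J hb hu).2 w hw
  have hnX : (X : ℝ) ≤ n := by
    have := (Finset.mem_Ioc.1 hn).1
    exact_mod_cast this.le
  -- the lower bound for the values
  have key : ∀ j ≤ b * J, (X : ℝ) / 2 ≤ (val n (w.take j) : ℕ) * iv (w.take j) := by
    intro j hj
    refine le_trans ?_ (val_ge (w.take j) n)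
    rw [List.length_take, hl, min_eq_left hj]
    have h1 : ∑ i ∈ Finset.range j, iv ((w.take j).take (i + 1)) ≤
        ∑ i ∈ Finset.range j, 2 ^ b * R ^ ((i + 1) / b) := by
      apply Finset.sum_le_sum
      intro i hi
      rw [Finset.mem_range] at hi
      rw [List.take_take, min_eq_left (by omega)]
      refine (iv_le hE b u J hb hu w hw (i + 1) (by omega)).trans ?_
      apply mul_le_mul_of_nonneg_right _ (by positivity)
      exact pow_le_pow_right₀ (by norm_num) (Nat.mod_lt _ (by omega)).le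
    rw [← Finset.mul_sum] at h1
    have h2 := hsum J Y hY1 hJ j hj
    have h3 : ∑ i ∈ Finset.range j, iv ((w.take j).take (i + 1)) ≤ X := by
      refine h1.trans ?_
      calc (2 : ℝ) ^ b * ∑ i ∈ Finset.range j, R ^ ((i + 1) / b) ≤ 2 ^ b * (C * Y) :=
            mul_le_mul_of_nonneg_left h2 (by positivity)
        _ = Y * (2 ^ b * C) := by ring
        _ ≤ Y * (X : ℝ) ^ δ := mul_le_mul_of_nonneg_left hX1 hY0.le
        _ = X := hXY.symm
    linarith
  constructor
  · intro p hp
    obtain ⟨j, hj, e⟩ := mem_pos w n p hp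
    rw [hl] at hj
    have h1 := key j hj.le
    rw [← e] at h1
    have h2 : iv (w.take j) ≤ 2 ^ b * Y := by
      refine (iv_le hE b u J hb hu w hw j hj.le).trans ?_
      apply mul_le_mul _ (hRm (j / b) _) (by positivity) (by positivity)
      · exact pow_le_pow_right₀ (by norm_num) (Nat.mod_lt _ (by omega)).le
      · exact Nat.div_le_of_le_mul hj.le
    have h3 : (X : ℝ) / 2 ≤ p * (2 ^ b * Y) :=
      h1.trans (mul_le_mul_of_nonneg_left h2 (Nat.cast_nonneg p))
    have h4 : (X : ℝ) ^ δ = (X : ℝ) ^ (δ / 2) * (X : ℝ) ^ (δ / 2) := by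
      rw [← Real.rpow_add hX0]
      congr 1
      ring
    have h5 : 0 < (X : ℝ) ^ (δ / 2) := Real.rpow_pos_of_pos hX0 _
    by_contra hcon
    push Not at hcon
    have h6 : (p : ℝ) * (2 ^ b * Y) ≤ (X : ℝ) ^ (δ / 2) * (2 ^ b * Y) :=
      mul_le_mul_of_nonneg_right hcon (by positivity)
    have h7 : (X : ℝ) ^ (δ / 2) * (2 ^ (b + 1) * Y) <
        (X : ℝ) ^ (δ / 2) * ((X : ℝ) ^ (δ / 2) * Y) :=
      mul_lt_mul_of_pos_left (mul_lt_mul_of_pos_right hX2 hY0) h5
    have h8 : (X : ℝ) ^ (δ / 2) * ((X : ℝ) ^ (δ / 2) * Y) = X := by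
      rw [← mul_assoc, ← h4, mul_comm]
      exact hXY.symm
    rw [pow_succ] at h7
    nlinarith
  · have h1 := key (b * J) le_rfl
    have e1 : w.take (b * J) = w := by rw [← hl, List.take_length]
    rw [e1] at h1
    have h2 : iv w ≤ R ^ J := by
      have h3 := iv_le hE b u J hb hu w hw (b * J) le_rfl
      rw [e1, Nat.mul_mod_right, pow_zero, one_mul, Nat.mul_div_cancel_left _ (by omega)] at h3
      exact h3
    have h3 : (X : ℝ) / 2 ≤ (val n w : ℕ) * R ^ J :=
      h1.trans (mul_le_mul_of_nonneg_left h2 (Nat.cast_nonneg _))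
    have e2 : ((3 : ℝ) ^ u / 2 ^ b) ^ J = (R ^ J)⁻¹ := by
      rw [hR, ← inv_pow, inv_div]
    rw [e2, mul_div_right_comm, ← div_eq_mul_inv, div_le_iff₀ (pow_pos hR0 J)]
    exact h3

end Pool.Agent.N499.CL
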